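import Pool.Agent.helper96.SV.SpecA

set_option autoImplicit false

namespace Pool.Agent.SVA

open Polynomial Module

theorem MU1_ten {K : Type} [Fintype K] [DecidableEq K] {m : K → ℕ} (γ β : Bx m) :
    ten (fun i => (Pi.single (γ i) (1 : ℂ) : Fin (m i + 1) → ℂ)) β = if β = γ then 1 else 0 := by
  unfold ten
  by_cases h : β = γ
  · rw [if_pos h, h]
    apply Finset.prod_eq_one
    intro i _
    exact Pi.single_eq_same _ _
  · rw [if_neg h]
    obtain ⟨i, hi⟩ := Function.ne_iff.1 h
    apply Finset.prod_eq_zero (Finset.mem_univ i)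
    exact Pi.single_eq_of_ne hi _

theorem MU1_dot {n : ℕ} (p q : Fin n) :
    ∑ j, (Pi.single p (1 : ℂ) : Fin n → ℂ) j * (Pi.single q (1 : ℂ) : Fin n → ℂ) j =
      if p = q then 1 else 0 := by
  rw [Finset.sum_eq_single p]
  · rw [Pi.single_eq_same, one_mul, Pi.single_apply]
  · intro j _ hj
    rw [Pi.single_eq_of_ne hj, zero_mul]
  · intro h; exact absurd (Finset.mem_univ p) h

theorem MU1_expand {n : ℕ} (p q r t : Fin n → ℂ) (u v : ℂ) :
    ∑ j, (p j + v * q j) * (r j + u * t j) = ∑ j, p j * r j + u * ∑ j, p j * t j +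
      v * ∑ j, q j * r j + v * u * ∑ j, q j * t j := by
  rw [Finset.mul_sum, Finset.mul_sum, Finset.mul_sum, ← Finset.sum_add_distrib,
    ← Finset.sum_add_distrib, ← Finset.sum_add_distrib]
  exact Finset.sum_congr rfl fun j _ => by ring

theorem MU1 : MU1_stmt := by
  intro K _ _ m hm φ z hφ hz
  obtain ⟨β₀, hβ⟩ := Function.ne_iff.1 hφ
  obtain ⟨γ₀, hγ⟩ := Function.ne_iff.1 hz
  rw [Pi.zero_apply] at hβ hγ
  have hj : ∀ i, ∃ j : Fin (m i + 1), j ≠ γ₀ i := by
    intro i
    have : Nontrivial (Fin (m i + 1)) := Fin.nontrivial_iff_two_le.2 (by have := hm i; omega)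
    exact exists_ne (γ₀ i)
  choose j₀ hj₀ using hj
  set a1 : Py m := fun i => Pi.single (β₀ i) 1 with ha1
  set b2 : Py m := fun i => Pi.single (γ₀ i) 1 with hb2
  set a2 : Py m := fun i => Pi.single (j₀ i) 1 with ha2
  set c : Py m := fun i => if β₀ i = γ₀ i then -Pi.single (j₀ i) 1 else 0 with hc
  set g : ℂ → ℂ := fun u => pr φ (ten (fun i j => a1 i j + u * a2 i j)) with hg
  set f : ℂ → ℂ := fun s => pr (ten (fun i j => b2 i j + s * c i j)) z with hf
  have hlin : ∀ x y : ℂ, SV.PolyFun (fun t => x + t * y) := fun x y =>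
    (SV.PolyFun.const x).add (SV.PolyFun.id.mul (SV.PolyFun.const y))
  have hgp : SV.PolyFun g := by
    simp only [hg, pr, ten]
    refine SV.PolyFun.sum _ fun β _ => ?_
    exact (SV.PolyFun.const (φ β)).mul (SV.PolyFun.prod _ fun i _ => hlin _ _)
  have hfp : SV.PolyFun f := by
    simp only [hf, pr, ten]
    refine SV.PolyFun.sum _ fun β _ => ?_
    exact (SV.PolyFun.prod _ fun i _ => hlin _ _).mul (SV.PolyFun.const (z β))
  have hg0 : g 0 ≠ 0 := by
    have e : g 0 = φ β₀ := by
      simp only [hg]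
      have e1 : (fun (i : K) (j : Fin (m i + 1)) => a1 i j + 0 * a2 i j) =
          (fun i => (Pi.single (β₀ i) (1 : ℂ) : Fin (m i + 1) → ℂ)) := by
        funext i j
        rw [zero_mul, add_zero]
      rw [e1]
      unfold pr
      rw [Finset.sum_eq_single β₀]
      · rw [MU1_ten, if_pos rfl, mul_one]
      · intro β _ hne
        rw [MU1_ten, if_neg hne, mul_zero]
      · intro h; exact absurd (Finset.mem_univ _) h
    rw [e]; exact hβ
  have hf0 : f 0 ≠ 0 := by
    have e : f 0 = z γ₀ := by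
      simp only [hf]
      have e1 : (fun (i : K) (j : Fin (m i + 1)) => b2 i j + 0 * c i j) =
          (fun i => (Pi.single (γ₀ i) (1 : ℂ) : Fin (m i + 1) → ℂ)) := by
        funext i j
        rw [zero_mul, add_zero]
      rw [e1]
      unfold pr
      rw [Finset.sum_eq_single γ₀]
      · rw [MU1_ten, if_pos rfl, one_mul]
      · intro β _ hne
        rw [MU1_ten, if_neg hne, zero_mul]
      · intro h; exact absurd (Finset.mem_univ _) h
    rw [e]; exact hγ
  have s1 := hgp.finite_zeros hg0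
  have s2 := hfp.finite_zeros hf0
  have s3 : {u : ℂ | f u⁻¹ = 0}.Finite := by
    have := s2.preimage (f := fun u : ℂ => u⁻¹) (fun x _ y _ h => inv_injective h)
    exact this
  have s4 := (s1.union s3).union (Set.finite_singleton (0 : ℂ))
  obtain ⟨u, hu⟩ := s4.infinite_compl.nonempty
  simp only [Set.mem_compl_iff, Set.mem_union, Set.mem_setOf_eq, Set.mem_singleton_iff,
    not_or] at hu
  obtain ⟨⟨hu1, hu2⟩, hu3⟩ := hu
  refine ⟨fun i j => a1 i j + u * a2 i j, fun i j => b2 i j + u⁻¹ * c i j, ?_, hu1, hu2⟩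
  intro i
  rw [MU1_expand]
  have d1 : ∑ j, b2 i j * a1 i j = if γ₀ i = β₀ i then 1 else 0 := MU1_dot _ _
  have d2 : ∑ j, b2 i j * a2 i j = 0 := by
    have := MU1_dot (γ₀ i) (j₀ i)
    rw [if_neg (fun h => hj₀ i h.symm)] at this
    exact this
  rw [d1, d2]
  by_cases h : β₀ i = γ₀ i
  · have hcc : ∀ j, c i j = -(Pi.single (j₀ i) (1 : ℂ) : Fin (m i + 1) → ℂ) j := by
      intro j
      simp only [hc]
      rw [if_pos h]
      rfl
    have d3 : ∑ j, c i j * a1 i j = 0 := by
      have := MU1_dot (j₀ i) (β₀ i)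
      rw [if_neg (fun h' => hj₀ i (h'.trans h))] at this
      simp only [hcc, neg_mul, Finset.sum_neg_distrib]
      rw [this, neg_zero]
    have d4 : ∑ j, c i j * a2 i j = -1 := by
      have := MU1_dot (j₀ i) (j₀ i)
      rw [if_pos rfl] at this
      simp only [hcc, neg_mul, Finset.sum_neg_distrib]
      rw [this]
    rw [d3, d4, if_pos h.symm, inv_mul_cancel₀ hu3]
    ring
  · have hcc : ∀ j, c i j = 0 := by
      intro j
      simp only [hc]
      rw [if_neg h]
      rfl
    rw [if_neg (fun h' => h h'.symm)]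
    simp only [hcc, zero_mul, Finset.sum_const_zero]
    ring

end Pool.Agent.SVA
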